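import Pool.Agent.H59.L.T374d34.N483.KM.Stm1
import Pool.Agent.H59.L.S8.R755.KF.All

/-!
# Expectations and the affinity
-/

set_option autoImplicit false

namespace Pool.Agent.N523.KM

open MeasureTheory Set Filter Topology
open scoped ENNReal InnerProductSpace
open Pool.Agent.H888R2.KT (gs gc)
open Pool.Agent.R754.KG (E un sl Rv)
open Pool.Agent.R755.KF
open Pool.Agent.N483.KM (S_AFB)

theorem pb_mono {k : ℕ} {B C : ℝ} {ν : Measure (E k)} (h : PB B ν) (hBC : B ≤ C) : PB C ν :=
  ⟨h.prob, h.bdd.mono fun _ hx => hx.trans hBC⟩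

theorem t_AFB : S_AFB := by
  intro k h Ba Bb νa νb φ hh hBa hBb hφ hφ1
  set B := max 0 (max Ba Bb) with hB
  have hB0 : 0 ≤ B := le_max_left _ _
  have ha : PB B νa := pb_mono hBa ((le_max_left _ _).trans (le_max_right _ _))
  have hb : PB B νb := pb_mono hBb ((le_max_right _ _).trans (le_max_right _ _))
  obtain ⟨ca, pa, _, _, _, ia, ea⟩ := zn_ok k h B νa hh hB0 ha
  obtain ⟨cb, pb, _, _, _, ib, eb⟩ := zn_ok k h B νb hh hB0 hb
  set g := gc (Fin k) h with hg
  have hg0 : 0 < g := T2aux.gcp hh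
  have is : Integrable (fun y => Real.sqrt (zn h νa y * zn h νb y)) :=
    (T2aux.e2_cos rep zn_ok omR hh hB0 ha hb).1
  have hφ' : ∀ y, |φ y| ≤ 1 * (1 + ‖y‖) := fun y => (hφ1 y).trans (by linarith [norm_nonneg y])
  obtain ⟨_, ja, ra⟩ := rep k h B 1 νa φ hh ha hφ hφ'
  obtain ⟨_, jb, rb⟩ := rep k h B 1 νb φ hh hb hφ hφ'
  set sa := fun y => Real.sqrt (zn h νa y) with hsa
  set sb := fun y => Real.sqrt (zn h νb y) with hsb
  have csa : Continuous sa := Real.continuous_sqrt.comp ca.continuous
  have csb : Continuous sb := Real.continuous_sqrt.comp cb.continuous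
  have qa : ∀ y, sa y ^ 2 = zn h νa y := fun y => Real.sq_sqrt (pa y).le
  have qb : ∀ y, sb y ^ 2 = zn h νb y := fun y => Real.sq_sqrt (pb y).le
  have na : ∀ y, 0 ≤ sa y := fun y => Real.sqrt_nonneg _
  have nb : ∀ y, 0 ≤ sb y := fun y => Real.sqrt_nonneg _
  have qab : ∀ y, sa y * sb y = Real.sqrt (zn h νa y * zn h νb y) := fun y =>
    (Real.sqrt_mul (pa y).le _).symm
  have ed : ∀ y, (sa y - sb y) ^ 2 =
      (zn h νa y + zn h νb y) - 2 * Real.sqrt (zn h νa y * zn h νb y) := by
    intro y
    rw [← qab y, ← qa y, ← qb y]; ring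
  have es : ∀ y, (sa y + sb y) ^ 2 =
      (zn h νa y + zn h νb y) + 2 * Real.sqrt (zn h νa y * zn h νb y) := by
    intro y
    rw [← qab y, ← qa y, ← qb y]; ring
  have iab : Integrable (fun y => zn h νa y + zn h νb y) := ia.add ib
  have i2 : Integrable (fun y => 2 * Real.sqrt (zn h νa y * zn h νb y)) := is.const_mul 2
  have idf : Integrable (fun y => (sa y - sb y) ^ 2) := by
    simp only [ed]; exact iab.sub i2
  have isf : Integrable (fun y => (sa y + sb y) ^ 2) := by
    simp only [es]; exact iab.add i2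
  have haff : ∫ y, Real.sqrt (zn h νa y * zn h νb y) = g * aff h νa νb := by
    rw [aff, ← mul_assoc, mul_inv_cancel₀ hg0.ne', one_mul]
  have vd : ∫ y, (sa y - sb y) ^ 2 = g * (2 - 2 * aff h νa νb) := by
    simp only [ed]
    rw [integral_sub iab i2, integral_add ia ib, integral_const_mul, ea, eb, haff]
    ring
  have vs : ∫ y, (sa y + sb y) ^ 2 = g * (2 + 2 * aff h νa νb) := by
    simp only [es]
    rw [integral_add iab i2, integral_add ia ib, integral_const_mul, ea, eb, haff]
    ring
  have h0d : 0 ≤ g * (2 - 2 * aff h νa νb) := by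
    rw [← vd]; exact integral_nonneg fun y => sq_nonneg _
  have hal : 0 ≤ 1 - aff h νa νb := by
    by_contra hc
    push Not at hc
    have : g * (2 - 2 * aff h νa νb) < 0 := mul_neg_of_pos_of_neg hg0 (by linarith)
    linarith
  refine ⟨hal, ?_⟩
  have e1 : ey h νa φ - ey h νb φ = g⁻¹ * ∫ y, φ y * (zn h νa y - zn h νb y) := by
    rw [ra, rb, ← mul_sub, ← integral_sub ja jb]
    congr 2
    funext y
    ring
  have key : ∀ t : ℝ, 0 < t → |ey h νa φ - ey h νb φ| ≤ t * (1 - aff h νa νb) + 2 / t := by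
    intro t ht
    have it : Integrable (fun y => t / 2 * (sa y - sb y) ^ 2 + 1 / (2 * t) * (sa y + sb y) ^ 2) :=
      (idf.const_mul _).add (isf.const_mul _)
    have e2' : |∫ y, φ y * (zn h νa y - zn h νb y)| ≤
        ∫ y, (t / 2 * (sa y - sb y) ^ 2 + 1 / (2 * t) * (sa y + sb y) ^ 2) := by
      refine abs_integral_le_integral_abs.trans ?_
      refine integral_mono_of_nonneg (Eventually.of_forall fun y => abs_nonneg _) it
        (Eventually.of_forall fun y => ?_)
      have u1 : |φ y * (zn h νa y - zn h νb y)| ≤ |sa y - sb y| * (sa y + sb y) := by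
        rw [abs_mul]
        have : |zn h νa y - zn h νb y| = |sa y - sb y| * (sa y + sb y) := by
          rw [← qa y, ← qb y, sq_sub_sq, abs_mul, abs_of_nonneg (add_nonneg (na y) (nb y)),
            mul_comm]
        rw [this]
        have h0 : 0 ≤ |sa y - sb y| * (sa y + sb y) :=
          mul_nonneg (abs_nonneg _) (add_nonneg (na y) (nb y))
        exact mul_le_of_le_one_left h0 (hφ1 y)
      refine u1.trans ?_
      have u2 : |sa y - sb y| ^ 2 = (sa y - sb y) ^ 2 := sq_abs _
      have u3 : t / 2 * (sa y - sb y) ^ 2 + 1 / (2 * t) * (sa y + sb y) ^ 2 -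
          |sa y - sb y| * (sa y + sb y) = 1 / (2 * t) * (t * |sa y - sb y| - (sa y + sb y)) ^ 2 := by
        rw [← u2]
        field_simp
        ring
      have u4 : 0 ≤ 1 / (2 * t) * (t * |sa y - sb y| - (sa y + sb y)) ^ 2 := by positivity
      show |sa y - sb y| * (sa y + sb y) ≤
        t / 2 * (sa y - sb y) ^ 2 + 1 / (2 * t) * (sa y + sb y) ^ 2
      linarith
    have e3 : ∫ y, (t / 2 * (sa y - sb y) ^ 2 + 1 / (2 * t) * (sa y + sb y) ^ 2) =
        g * (t * (1 - aff h νa νb) + (1 + aff h νa νb) / t) := by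
      rw [integral_add (idf.const_mul _) (isf.const_mul _), integral_const_mul,
        integral_const_mul, vd, vs]
      field_simp
    rw [e1, abs_mul, abs_of_pos (inv_pos.2 hg0)]
    rw [e3] at e2'
    calc g⁻¹ * |∫ y, φ y * (zn h νa y - zn h νb y)| ≤
        g⁻¹ * (g * (t * (1 - aff h νa νb) + (1 + aff h νa νb) / t)) :=
          mul_le_mul_of_nonneg_left e2' (inv_nonneg.2 hg0.le)
      _ = t * (1 - aff h νa νb) + (1 + aff h νa νb) / t := by
          rw [← mul_assoc, inv_mul_cancel₀ hg0.ne', one_mul]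
      _ ≤ _ := by
          have : (1 + aff h νa νb) / t ≤ 2 / t := by
            apply div_le_div_of_nonneg_right _ ht.le
            linarith
          linarith
  set d := 1 - aff h νa νb with hd
  rcases hal.eq_or_lt with h0 | h0
  · rw [← h0, Real.sqrt_zero, mul_zero]
    by_contra hc
    push Not at hc
    have := key (4 / |ey h νa φ - ey h νb φ|) (by positivity)
    rw [← h0, mul_zero, zero_add] at this
    have e : 2 / (4 / |ey h νa φ - ey h νb φ|) = |ey h νa φ - ey h νb φ| / 2 := by
      field_simp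
      norm_num
    rw [e] at this
    linarith
  · have hs0 : 0 < Real.sqrt d := Real.sqrt_pos.2 h0
    have hss : Real.sqrt d * Real.sqrt d = d := Real.mul_self_sqrt hal
    have := key (3 / 2 / Real.sqrt d) (by positivity)
    refine this.trans ?_
    have e4 : 3 / 2 / Real.sqrt d * d = 3 / 2 * Real.sqrt d := by
      nth_rewrite 2 [← hss]
      field_simp
    have e5 : 2 / (3 / 2 / Real.sqrt d) = 4 / 3 * Real.sqrt d := by
      field_simp
      norm_num
    rw [e4, e5]
    linarith

end Pool.Agent.N523.KM
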