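import Pool.Agent.H59.L.T374d34.N483.KM.Stm
import Pool.Agent.H59.L.S8.R755.KF.All

/-!
# The affinity on large scales

Adapted from `Pool/Agent/R755/KF/T6W.lean`.
-/

set_option autoImplicit false

namespace Pool.Agent.N523.KM

open MeasureTheory Set Filter Topology
open scoped ENNReal InnerProductSpace
open Pool.Agent.H888R2.KT (gs gc)
open Pool.Agent.R754.KG (E un sl Rv)
open Pool.Agent.R755.KF
open Pool.Agent.N483.KM (S_CLL S_LRG)

theorem t_LRG (h : S_CLL) : S_LRG := by
  have h5 : S_AFF := affR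
  have h7 : S_CT := ct zn_ok
  obtain ⟨c, hc, h6⟩ := h
  refine ⟨c + 5, by positivity, ?_⟩
  intro k h1 A δ sg B D η νa νb hA hδ hsg hAh hsh hD hB hη ha hb hm hpl hsm
  have hh1 : 0 < h1 := by linarith
  set R := η + D ^ 2 / h1 + δ with hR
  have hDh : 0 ≤ D ^ 2 / h1 := by positivity
  have hcδ : 0 ≤ c * δ := by positivity
  have hcη : 0 ≤ c * η := by positivity
  have hcD : 0 ≤ c * (D ^ 2 / h1) := by positivity
  have hRe : (c + 5) * R = c * η + c * (D ^ 2 / h1) + c * δ + 5 * η + 5 * (D ^ 2 / h1) + 5 * δ := by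
    rw [hR]; ring
  -- small angle for all h
  have step : ∀ h, h1 ≤ h → 1 - aff h νa νb ≤ 1 / 500 → 1 - aff h νa νb ≤ (c + 5) * R := by
    intro h hle hal
    have hh : 0 < h := by linarith
    have a0 := h5 k h B νa νb hh hB ha.pb hb.pb
    have a1 := a0.2
    have a2 := h6 k h A δ sg B D η νa νb hA hδ hsg (by linarith) (by linarith) hD hB hη ha hb hm
      (hpl h hle) (by linarith)
    have a3 : 5 * D ^ 2 / h ≤ 5 * (D ^ 2 / h1) := by
      rw [mul_div_assoc]
      refine mul_le_mul_of_nonneg_left ?_ (by norm_num)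
      exact div_le_div_of_nonneg_left (by positivity) hh1 hle
    have a4 := a0.1
    rw [hRe]
    linarith
  obtain ⟨hct, hlim⟩ := h7 k B νa νb ha.pb hb.pb
  have al0 : 1 - aff h1 νa νb ≤ 1 / 500 := by
    by_contra hcc
    push Not at hcc
    have hev : ∀ᶠ h in atTop, 1 - 1 / 1000 < aff h νa νb := hlim.eventually
      (lt_mem_nhds (by norm_num))
    obtain ⟨h', hh', hge⟩ := (hev.and (eventually_ge_atTop h1)).exists
    have hcont : ContinuousOn (fun h => aff h νa νb) (Icc h1 h') :=
      hct.mono fun x hx => lt_of_lt_of_le hh1 hx.1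
    have hiv := intermediate_value_Icc hge hcont
    have hmem : (1 - 3 / 2000 : ℝ) ∈ Icc (aff h1 νa νb) (aff h' νa νb) := by
      constructor
      · linarith
      · linarith
    obtain ⟨h'', hh'', he⟩ := hiv hmem
    have he' : aff h'' νa νb = 1 - 3 / 2000 := he
    have := step h'' hh''.1 (by rw [he']; norm_num)
    rw [he'] at this
    linarith
  exact step h1 (le_refl _) al0

end Pool.Agent.N523.KM
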